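import Mathlib

/-!
# The `μ`-invariant of totally real fields and fixed vectors: definitions

`QB` is the field of the algebraic numbers; number fields are the `E : IntermediateField ℚ QB` of finite
degree. For an odd prime `p` the cyclotomic `ℤ_p`-extension of `E` is `E ⊔ Qinf p`.
-/

set_option autoImplicit false

namespace Pool.Agent.H24MU.St

open IntermediateField

/-- The field of the algebraic numbers. -/
abbrev QB : Type := AlgebraicClosure ℚ

/-- The subfields of `QB`. -/
abbrev Fds : Type := IntermediateField ℚ QB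

/-- The absolute Galois group of `ℚ`. -/
abbrev GQ : Type := QB ≃ₐ[ℚ] QB

/-- `σ` belongs to the absolute Galois group of `K`. -/
def Fixes (K : Fds) (σ : GQ) : Prop := ∀ x ∈ K, σ x = x

/-- `σ` belongs to the inertia group of some maximal ideal `P` of the ring of the algebraic integers such
that `P` contains no element of `S`: `σ x ≡ x` modulo `P` for all algebraic integers `x`. -/
def IsInertia (S : Finset ℕ) (σ : GQ) : Prop :=
  ∃ P : Ideal (integralClosure ℤ QB), P.IsMaximal ∧ (∀ q ∈ S, (q : integralClosure ℤ QB) ∉ P) ∧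
    ∀ x y : integralClosure ℤ QB, (y : QB) = σ x → y - x ∈ P

/-- The field `F` is unramified outside `S`. -/
def UnramifiedOutside (S : Finset ℕ) (F : Fds) : Prop :=
  ∀ σ : GQ, IsInertia S σ → Fixes F σ

/-- The homomorphisms `φ` from the absolute Galois group of `K` to `ℤ / p`, extended by zero to the
absolute Galois group of `ℚ`, which are continuous (trivial on the elements which fix a suitable number
field) and unramified outside `S` (trivial on the inertia groups of the maximal ideals which contain no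
element of `S`). Those with `φ ≠ 0` correspond to the cyclic extensions of `K` of degree `p` which are
unramified outside `S` and the infinite places, together with a generator of the Galois group. -/
def Homs (p : ℕ) (S : Finset ℕ) (K : Fds) : Set (GQ → ZMod p) :=
  {φ | (∀ σ, ¬ Fixes K σ → φ σ = 0) ∧
    (∀ σ τ, Fixes K σ → Fixes K τ → φ (σ * τ) = φ σ + φ τ) ∧
    (∃ E : Fds, FiniteDimensional ℚ E ∧ ∀ σ, Fixes K σ → Fixes E σ → φ σ = 0) ∧
    ∀ σ, Fixes K σ → IsInertia S σ → φ σ = 0}

/-- The compositum of the subfields of the fields of the `p ^ n`-th roots of unity which are Galois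
extensions of `ℚ` of `p`-power degree. For `p ≠ 2` this is the cyclotomic `ℤ_p`-extension of `ℚ`. -/
noncomputable def Qinf (p : ℕ) : Fds :=
  sSup {B : Fds | IsGalois ℚ B ∧ (∃ n, Module.finrank ℚ B = p ^ n) ∧
    ∃ n, B ≤ adjoin ℚ {z : QB | z ^ p ^ n = 1}}

/-- `μ_p(E) = 0`: for every finite set `S` of primes which contains `p` there are only finitely many
homomorphisms from `X_Σ` to `ℤ / p`, where `Σ` is the set of the places of `E` over `S` and `∞`. -/
def MuZero (p : ℕ) (E : Fds) : Prop :=
  ∀ S : Finset ℕ, (∀ q ∈ S, q.Prime) → p ∈ S → (Homs p S (E ⊔ Qinf p)).Finite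

/-- The group of the automorphisms of `F`. -/
def Aut (F : Fds) : Type := F ≃ₐ[ℚ] F

noncomputable instance groupAut (F : Fds) : Group (Aut F) :=
  @AlgEquiv.aut ℚ F _ _ _

/-- The field of the elements of `F` fixed by `D`. -/
noncomputable def fx (F : Fds) (D : Subgroup (Aut F)) :
    Fds := lift (fixedField (F := ℚ) (E := F) D)

/-- `V`, written multiplicatively, with the action `b` is an irreducible `𝔽_p[Γ]`-module. -/
def Irr (p : ℕ) {Γ V : Type} [Group Γ] [CommGroup V] (b : Γ →* MulAut V) : Prop :=
  (∀ v : V, v ^ p = 1) ∧ (∃ v : V, v ≠ 1) ∧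
    ∀ U : Subgroup V, (∀ g, ∀ u ∈ U, b g u ∈ U) → U = ⊥ ∨ U = ⊤

/-- `D` fixes a nontrivial vector. -/
def HasFixed {Γ V : Type} [Group Γ] [CommGroup V] (b : Γ →* MulAut V) (D : Subgroup Γ) : Prop :=
  ∃ v : V, v ≠ 1 ∧ ∀ d ∈ D, b d v = v

/-- Every irreducible (finite) `𝔽_p[Γ]`-module has for some `i` a nontrivial vector fixed by `D i`. -/
def Dominating (p : ℕ) {Γ ι : Type} [Group Γ] (D : ι → Subgroup Γ) : Prop :=
  ∀ (V : Type) [CommGroup V] [Finite V] (b : Γ →* MulAut V), Irr p b → ∃ i, HasFixed b (D i)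

/-- Some irreducible `𝔽_p[Aut F]`-module `V` is such that `μ_p(F^D) ≠ 0` for all the subgroups `D` of
`Aut F`, of any order, which have a nontrivial fixed vector in `V`. -/
def Witness (p : ℕ) (F : Fds) : Prop :=
  ∃ (V : Type) (_ : CommGroup V) (_ : Finite V) (b : Aut F →* MulAut V), Irr p b ∧
    ∀ D : Subgroup (Aut F), HasFixed b D → ¬ MuZero p (fx F D)

/-- The number of elements of `Homs p S K` (zero if the set is infinite). -/
noncomputable def h (p : ℕ) (S : Finset ℕ) (K : Fds) : ℕ := (Homs p S K).ncard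

/-- The inequality `h(F Z) ≤ (∏ i, p ^ (g ^ 2) h(F^{D i} Z)) ^ (g ^ 2)` with `g = |Aut F|`, where the
finiteness of the factors on the right side implies that of the left side. -/
def Bounded (p : ℕ) (S : Finset ℕ) (F Z : Fds) {ι : Type} [Fintype ι]
    (D : ι → Subgroup (Aut F)) : Prop :=
  (∀ i, (Homs p S (fx F (D i) ⊔ Z)).Finite) → (Homs p S (F ⊔ Z)).Finite ∧
    h p S (F ⊔ Z) ≤
      (∏ i, p ^ (Nat.card (Aut F) ^ 2) * h p S (fx F (D i) ⊔ Z)) ^ (Nat.card (Aut F) ^ 2)

/-- A totally real number field. -/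
def IsReal (F : Fds) : Prop :=
  FiniteDimensional ℚ F ∧ NumberField.IsTotallyReal F

/-- The degree. -/
noncomputable def deg (F : Fds) : ℕ := Module.finrank ℚ F

/-- The totally real field `M` is *tight*: for every totally real number field `L` which contains `M`
there is an irreducible `𝔽_p[Aut L]`-module in which the subgroups `D` of `Aut L` with
`[L^D : ℚ] < [M : ℚ]` have no nontrivial fixed vectors. -/
def Tight (p : ℕ) (M : Fds) : Prop :=
  ∀ L : Fds, IsReal L → M ≤ L →
    ∃ (V : Type) (_ : CommGroup V) (_ : Finite V) (b : Aut L →* MulAut V), Irr p b ∧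
      ∀ D : Subgroup (Aut L), deg (fx L D) < deg M → ¬ HasFixed b D

/-- The restrictions on a tight field `M`: the order of `Aut M` is prime to `p`, and `Aut M` acts on some
finite elementary abelian `p`-group `V ≠ 1` in such a way that no `σ ≠ 1` has a nontrivial fixed vector;
the `p`-subgroups `P` of `Aut L` satisfy `|P| [M : ℚ] ≤ [L : ℚ]` for all totally real number fields `L`
which contain `M`. -/
def Restricted (p : ℕ) (M : Fds) : Prop :=
  ¬ p ∣ Nat.card (Aut M) ∧
  (∃ (V : Type) (_ : CommGroup V) (_ : Finite V) (b : Aut M →* MulAut V),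
    (∀ v : V, v ^ p = 1) ∧ (∃ v : V, v ≠ 1) ∧ ∀ σ, σ ≠ 1 → ∀ v, b σ v = v → v = 1) ∧
  ∀ L : Fds, IsReal L → M ≤ L →
    ∀ P : Subgroup (Aut L), (∃ k, Nat.card P = p ^ k) → Nat.card P * deg M ≤ deg L

end Pool.Agent.H24MU.St
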