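import Mathlib
import Pool.Agent.X310.MuDefs

/-!
# A finiteness criterion for modules over groups with a finite image

`M` is an `𝔽_p`-vector space with an action of a group `Z` which factors through the image of `Z` in the
finite group `Γ`. If every irreducible `𝔽_p[Γ]`-module has a nonzero vector fixed by some `D i`, and the
vectors fixed by the elements of `Z` over the conjugates of the `D i` form finite sets, then `M` is finite;
its order is bounded explicitly.
-/

set_option autoImplicit false

namespace Pool.Agent.H24MU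

open Pool.Agent.X310.Mu

/-- If the `D i` have nontrivial fixed vectors on the irreducible modules then they have such vectors on
all nontrivial finite modules. -/
theorem dom_all {p : ℕ} {Γ ι : Type} [Group Γ] {D : ι → Subgroup Γ} (hdom : Dominates p ⊥ D)
    (V : Type) [CommGroup V] [Finite V] (b : Γ →* MulAut V) (hV : ∀ v : V, v ^ p = 1)
    (hne : ∃ v : V, v ≠ 1) : ∃ i, ∃ v : V, v ≠ 1 ∧ ∀ d ∈ D i, b d v = v := by
  obtain ⟨v₁, hv₁⟩ := hne
  obtain ⟨U, ⟨hU0, hUst⟩, hmin⟩ := wellFounded_lt.has_min
    {U : Subgroup V | U ≠ ⊥ ∧ ∀ g, ∀ u ∈ U, b g u ∈ U} ⟨⊤, by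
      refine ⟨fun h => hv₁ ?_, fun _ _ _ => Subgroup.mem_top _⟩
      have h1 : v₁ ∈ (⊤ : Subgroup V) := Subgroup.mem_top _
      rw [h] at h1
      exact Subgroup.mem_bot.1 h1⟩
  let bU : Γ →* MulAut U :=
    { toFun := fun g =>
        { toFun := fun u => ⟨b g u, hUst g u u.2⟩
          invFun := fun u => ⟨b g⁻¹ u, hUst g⁻¹ u u.2⟩
          left_inv := fun u => Subtype.ext (by
            change b g⁻¹ (b g u) = u
            rw [← MulAut.mul_apply, ← map_mul, inv_mul_cancel, map_one, MulAut.one_apply])
          right_inv := fun u => Subtype.ext (by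
            change b g (b g⁻¹ u) = u
            rw [← MulAut.mul_apply, ← map_mul, mul_inv_cancel, map_one, MulAut.one_apply])
          map_mul' := fun u v => Subtype.ext (map_mul (b g) (u : V) (v : V)) }
      map_one' := by
        ext u
        change b 1 u = u
        rw [map_one, MulAut.one_apply]
      map_mul' := fun g h => by
        ext u
        change b (g * h) u = b g (b h u)
        rw [map_mul, MulAut.mul_apply] }
  obtain ⟨i, v, hv, hf⟩ := hdom U bU (fun v => Subtype.ext (hV v)) (by
    intro X hX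
    by_contra hcon
    push Not at hcon
    obtain ⟨h1, h2⟩ := hcon
    refine hmin (X.map U.subtype) ⟨?_, ?_⟩ ?_
    · intro h3
      exact h1 ((Subgroup.map_eq_bot_iff_of_injective X U.subtype_injective).1 h3)
    · rintro g _ ⟨u, hu, rfl⟩
      exact ⟨bU g u, hX g u hu, rfl⟩
    · refine lt_of_le_of_ne ?_ ?_
      · rintro _ ⟨u, _, rfl⟩
        exact u.2
      · intro h3
        apply h2
        rw [eq_top_iff]
        intro u _
        have h4 : (u : V) ∈ X.map U.subtype := by
          rw [h3]
          exact u.2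
        obtain ⟨u', hu', h5⟩ := h4
        have h6 : u' = u := Subtype.ext h5
        rw [← h6]
        exact hu') (by
    obtain ⟨u, hu, hu1⟩ := (Subgroup.bot_or_exists_ne_one U).resolve_left hU0
    refine ⟨⟨u, hu⟩, fun h => hu1 (congrArg Subtype.val h), fun h hh => ?_⟩
    rw [Subgroup.mem_bot] at hh
    rw [hh, map_one, MulAut.one_apply])
  exact ⟨i, v, fun h => hv (Subtype.ext h), fun d hd => congrArg Subtype.val (hf d hd)⟩

/-- The vectors fixed by the elements over the conjugate of `D i` by `γ`. -/
def Fx {p : ℕ} {Γ Z M : Type} [Group Γ] [Group Z] [AddCommGroup M] [Module (ZMod p) M] (π : Z →* Γ)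
    (r : Z →* Module.End (ZMod p) M) (D : Subgroup Γ) (γ : Γ) : Submodule (ZMod p) M where
  carrier := {x | ∀ h : Z, γ⁻¹ * π h * γ ∈ D → r h x = x}
  add_mem' := fun ha hb h hh => by rw [map_add, ha h hh, hb h hh]
  zero_mem' := fun _ _ => map_zero _
  smul_mem' := fun c _ hx h hh => by rw [map_smul, hx h hh]

theorem mem_Fx {p : ℕ} {Γ Z M : Type} [Group Γ] [Group Z] [AddCommGroup M] [Module (ZMod p) M]
    {π : Z →* Γ} {r : Z →* Module.End (ZMod p) M} {D : Subgroup Γ} {γ : Γ} {x : M} :
    x ∈ Fx π r D γ ↔ ∀ h : Z, γ⁻¹ * π h * γ ∈ D → r h x = x := Iff.rfl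

theorem core {p : ℕ} [Fact p.Prime] {Γ ι Z M : Type} [Group Γ] [Fintype Γ] [Fintype ι] [Group Z]
    [AddCommGroup M] [Module (ZMod p) M] (π : Z →* Γ) (r : Z →* Module.End (ZMod p) M)
    (hr : ∀ h, π h = 1 → r h = 1) (D : ι → Subgroup Γ) (hdom : Dominates p ⊥ D)
    (hfin : ∀ i (γ : Γ), Finite (Fx π r (D i) γ)) :
    Finite M ∧ Nat.card M ≤ (∏ j : ι × Γ, Nat.card (Fx π r (D j.1) j.2)) ^ Nat.card Γ := by
  classical
  let J : ((j : ι × Γ) → Fx π r (D j.1) j.2) →ₗ[ZMod p] M :=
    { toFun := fun u => ∑ j, (u j : M)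
      map_add' := fun u v => by
        rw [← Finset.sum_add_distrib]
        rfl
      map_smul' := fun c u => by
        rw [RingHom.id_apply, Finset.smul_sum]
        rfl }
  let T := LinearMap.range J
  have hfin' : ∀ j : ι × Γ, Finite (Fx π r (D j.1) j.2) := fun j => hfin j.1 j.2
  have hT : Finite T := Finite.of_surjective _ J.surjective_rangeRestrict
  have hTcard : Nat.card T ≤ ∏ j : ι × Γ, Nat.card (Fx π r (D j.1) j.2) := by
    rw [← Nat.card_pi]
    exact Nat.card_le_card_of_surjective _ J.surjective_rangeRestrict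
  have hFT : ∀ i γ, Fx π r (D i) γ ≤ T := by
    intro i γ x hx
    refine ⟨Pi.single (i, γ) ⟨x, hx⟩, ?_⟩
    change ∑ j, ((Pi.single (i, γ) (⟨x, hx⟩ : Fx π r (D i) γ) :
      (j : ι × Γ) → Fx π r (D j.1) j.2) j : M) = x
    rw [Finset.sum_eq_single (i, γ)]
    · rw [Pi.single_eq_same]
    · intro j _ hj
      rw [Pi.single_eq_of_ne hj]
      rfl
    · intro hj
      exact absurd (Finset.mem_univ _) hj
  obtain ⟨f, hf⟩ := T.subtype.exists_leftInverse_of_injective T.ker_subtype
  have hf1 : ∀ t : T, f (t : M) = t := fun t => LinearMap.congr_fun hf t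
  let s : Γ → Z := fun γ => if h : ∃ z, π z = γ then Classical.choose h else 1
  have hs : ∀ h, π (s (π h)) = π h := by
    intro h
    have h1 : ∃ z, π z = π h := ⟨h, rfl⟩
    change π (if h : ∃ z, π z = π h then Classical.choose h else 1) = π h
    rw [dif_pos h1]
    exact Classical.choose_spec h1
  have hrr : ∀ h h', π h = π h' → r h = r h' := by
    intro h h' hh
    have h1 : r (h * h'⁻¹) = 1 := hr _ (by rw [map_mul, map_inv, hh, mul_inv_cancel])
    calc r h = r (h * h'⁻¹ * h') := by rw [inv_mul_cancel_right]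
      _ = r h' := by rw [map_mul, h1, one_mul]
  let Φ : M → (Γ → T) := fun x γ => f (r (s γ) x)
  suffices hΦ : Function.Injective Φ by
    refine ⟨Finite.of_injective Φ hΦ, ?_⟩
    refine (Nat.card_le_card_of_injective Φ hΦ).trans ?_
    rw [Nat.card_fun]
    exact Nat.pow_le_pow_left hTcard _
  by_contra hΦ
  rw [Function.Injective] at hΦ
  push Not at hΦ
  obtain ⟨x, y, hxy, hne⟩ := hΦ
  let z := x - y
  have hz : z ≠ 0 := sub_ne_zero.2 hne
  have hz0 : ∀ h, f (r h z) = 0 := by
    intro h
    rw [hrr h _ (hs h).symm, map_sub, map_sub, sub_eq_zero]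
    exact congrFun hxy (π h)
  let W := Submodule.span (ZMod p) (Set.range fun h => r h z)
  have hWfin : (Set.range fun h => r h z).Finite := by
    refine (Set.finite_range fun γ => r (s γ) z).subset ?_
    rintro _ ⟨h, rfl⟩
    exact ⟨π h, by
      change r (s (π h)) z = r h z
      rw [hrr h _ (hs h).symm]⟩
  have hWm : Module.Finite (ZMod p) W := Module.Finite.span_of_finite (ZMod p) hWfin
  have hW : Finite W := Module.finite_of_finite (ZMod p)
  have hWf : ∀ w ∈ W, f w = 0 := by
    intro w hw
    have h1 : W ≤ LinearMap.ker f := by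
      refine Submodule.span_le.2 ?_
      rintro _ ⟨h, rfl⟩
      exact hz0 h
    exact h1 hw
  have hWst : ∀ h, ∀ w ∈ W, r h w ∈ W := by
    intro h w hw
    have h1 : W ≤ W.comap (r h) := by
      refine Submodule.span_le.2 ?_
      rintro _ ⟨h', rfl⟩
      refine Submodule.subset_span ⟨h * h', ?_⟩
      change r (h * h') z = r h (r h' z)
      rw [map_mul]
      rfl
    exact h1 hw
  have hz1 : z ∈ W := Submodule.subset_span ⟨1, by
    change r 1 z = z
    rw [map_one]
    rfl⟩
  let V₀ : AddSubgroup (Γ → M) :=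
    { carrier := {v | (∀ γ, v γ ∈ W) ∧ ∀ h γ, v (π h * γ) = r h (v γ)}
      add_mem' := by
        rintro u v ⟨h1, h2⟩ ⟨h3, h4⟩
        refine ⟨fun γ => W.add_mem (h1 γ) (h3 γ), fun h γ => ?_⟩
        rw [Pi.add_apply, Pi.add_apply, h2, h4, map_add]
      zero_mem' := ⟨fun γ => W.zero_mem, fun h γ => by rw [Pi.zero_apply, Pi.zero_apply, map_zero]⟩
      neg_mem' := by
        rintro v ⟨h3, h4⟩
        refine ⟨fun γ => W.neg_mem (h3 γ), fun h γ => ?_⟩
        rw [Pi.neg_apply, Pi.neg_apply, h4, map_neg] }
  have hV₀ : Finite V₀ := by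
    refine Finite.of_injective (fun (v : V₀) (γ : Γ) => (⟨v.1 γ, v.2.1 γ⟩ : W)) ?_
    intro u v huv
    apply Subtype.ext
    funext γ
    exact congrArg Subtype.val (congrFun huv γ)
  let b : Γ →* MulAut (Multiplicative V₀) :=
    { toFun := fun g =>
        { toFun := fun v => Multiplicative.ofAdd ⟨fun γ => (Multiplicative.toAdd v).1 (γ * g),
            fun γ => (Multiplicative.toAdd v).2.1 _, fun h γ => by
              change (Multiplicative.toAdd v).1 (π h * γ * g) = r h ((Multiplicative.toAdd v).1 (γ * g))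
              rw [mul_assoc]
              exact (Multiplicative.toAdd v).2.2 h _⟩
          invFun := fun v => Multiplicative.ofAdd ⟨fun γ => (Multiplicative.toAdd v).1 (γ * g⁻¹),
            fun γ => (Multiplicative.toAdd v).2.1 _, fun h γ => by
              change (Multiplicative.toAdd v).1 (π h * γ * g⁻¹) =
                r h ((Multiplicative.toAdd v).1 (γ * g⁻¹))
              rw [mul_assoc]
              exact (Multiplicative.toAdd v).2.2 h _⟩
          left_inv := fun v => by
            apply Multiplicative.toAdd.injective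
            apply Subtype.ext
            funext γ
            change (Multiplicative.toAdd v).1 (γ * g⁻¹ * g) = (Multiplicative.toAdd v).1 γ
            rw [inv_mul_cancel_right]
          right_inv := fun v => by
            apply Multiplicative.toAdd.injective
            apply Subtype.ext
            funext γ
            change (Multiplicative.toAdd v).1 (γ * g * g⁻¹) = (Multiplicative.toAdd v).1 γ
            rw [mul_inv_cancel_right]
          map_mul' := fun u v => rfl }
      map_one' := by
        refine MulEquiv.ext fun v => ?_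
        apply Multiplicative.toAdd.injective
        apply Subtype.ext
        funext γ
        change (Multiplicative.toAdd v).1 (γ * 1) = (Multiplicative.toAdd v).1 γ
        rw [mul_one]
      map_mul' := fun g h => by
        refine MulEquiv.ext fun v => ?_
        apply Multiplicative.toAdd.injective
        apply Subtype.ext
        funext γ
        change (Multiplicative.toAdd v).1 (γ * (g * h)) = (Multiplicative.toAdd v).1 (γ * g * h)
        rw [mul_assoc] }
  have hb : ∀ g (v : Multiplicative V₀) (γ : Γ),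
      (Multiplicative.toAdd (b g v)).1 γ = (Multiplicative.toAdd v).1 (γ * g) := fun g v γ => rfl
  let v₀ : Γ → M := fun γ => if ∃ h, π h = γ then r (s γ) z else 0
  have hv₀ : v₀ ∈ V₀ := by
    refine ⟨fun γ => ?_, fun h γ => ?_⟩
    · change (if ∃ h, π h = γ then r (s γ) z else 0) ∈ W
      split_ifs
      · exact hWst _ _ hz1
      · exact W.zero_mem
    · change (if ∃ h', π h' = π h * γ then r (s (π h * γ)) z else 0) =
        r h (if ∃ h, π h = γ then r (s γ) z else 0)
      by_cases hγ : ∃ h', π h' = γ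
      · obtain ⟨h', rfl⟩ := hγ
        rw [if_pos ⟨h * h', map_mul _ _ _⟩, if_pos ⟨h', rfl⟩, ← map_mul, ← hrr _ _ (hs (h * h')).symm,
          map_mul, hrr h' _ (hs h').symm]
        rfl
      · rw [if_neg hγ, map_zero, if_neg]
        rintro ⟨h', hh'⟩
        exact hγ ⟨h⁻¹ * h', by rw [map_mul, map_inv, hh', inv_mul_cancel_left]⟩
  obtain ⟨i, v, hv1, hvf⟩ := dom_all hdom (Multiplicative V₀) b (fun v => by
    apply Multiplicative.toAdd.injective
    apply Subtype.ext
    funext γ
    change (p • (Multiplicative.toAdd v).1) γ = 0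
    rw [Pi.smul_apply, ← Nat.cast_smul_eq_nsmul (ZMod p), CharP.cast_eq_zero, zero_smul])
    ⟨Multiplicative.ofAdd ⟨v₀, hv₀⟩, fun h => by
      have h1 : v₀ = 0 := congrArg (fun w => (Multiplicative.toAdd w).1) h
      have h2 := congrFun h1 1
      change (if ∃ h, π h = (1 : Γ) then r (s 1) z else 0) = 0 at h2
      rw [if_pos ⟨1, map_one π⟩, hr (s 1) (by
        have h3 := hs 1
        rwa [map_one] at h3)] at h2
      exact hz h2⟩
  obtain ⟨γ₀, hγ₀⟩ : ∃ γ₀, (Multiplicative.toAdd v).1 γ₀ ≠ 0 := by
    by_contra hcon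
    push Not at hcon
    apply hv1
    apply Multiplicative.toAdd.injective
    apply Subtype.ext
    funext γ
    exact hcon γ
  let w := (Multiplicative.toAdd v).1 γ₀
  have hw : w ∈ W := (Multiplicative.toAdd v).2.1 γ₀
  have hwE : w ∈ Fx π r (D i) γ₀ := by
    intro h hh
    have h1 : r h w = (Multiplicative.toAdd v).1 (π h * γ₀) := ((Multiplicative.toAdd v).2.2 h γ₀).symm
    have h2 := hb (γ₀⁻¹ * π h * γ₀) v γ₀
    rw [hvf _ hh] at h2
    rw [h1]
    have h3 : γ₀ * (γ₀⁻¹ * π h * γ₀) = π h * γ₀ := by group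
    rw [h3] at h2
    exact h2.symm
  have hwT : w ∈ T := hFT i γ₀ hwE
  have h1 := hf1 ⟨w, hwT⟩
  have h2 : f w = 0 := hWf w hw
  have h3 : f ((⟨w, hwT⟩ : T) : M) = 0 := h2
  rw [h3] at h1
  exact hγ₀ (congrArg Subtype.val h1).symm

end Pool.Agent.H24MU
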