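import Mathlib
import Pool.Agent.H24MU.Alg

/-!
# Homomorphisms to `ℤ / p` of the subgroups of a group: invariants and finiteness
-/

set_option autoImplicit false

namespace Pool.Agent.H24MU

open Pool.Agent.X310.Mu

/-- A group with a system of open subgroups and a set of elements (the inertia elements) which is stable
under conjugation. -/
structure Sys (A : Type) [Group A] where
  Op : Subgroup A → Prop
  top : Op ⊤
  inf : ∀ U V, Op U → Op V → Op (U ⊓ V)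
  conj : ∀ U, Op U → ∀ g : A, ∃ U', Op U' ∧ ∀ σ ∈ U', g * σ * g⁻¹ ∈ U
  In : Set A
  in_conj : ∀ σ ∈ In, ∀ g : A, g * σ * g⁻¹ ∈ In

variable {A : Type} [Group A] (s : Sys A) (p : ℕ)

/-- The homomorphisms of `K` to `ℤ / p`, extended by zero, which vanish on an open subgroup and on the
inertia elements. -/
def Sys.H (K : Subgroup A) : Submodule (ZMod p) (A → ZMod p) where
  carrier := {φ | (∀ σ, σ ∉ K → φ σ = 0) ∧ (∀ σ ∈ K, ∀ τ ∈ K, φ (σ * τ) = φ σ + φ τ) ∧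
    (∃ U, s.Op U ∧ ∀ σ ∈ K, σ ∈ U → φ σ = 0) ∧ ∀ σ ∈ K, σ ∈ s.In → φ σ = 0}
  add_mem' := by
    rintro φ ψ ⟨h1, h2, ⟨U, hU, h3⟩, h4⟩ ⟨k1, k2, ⟨U', hU', k3⟩, k4⟩
    refine ⟨fun σ hσ => ?_, fun σ hσ τ hτ => ?_, ⟨U ⊓ U', s.inf _ _ hU hU', fun σ hσ hu => ?_⟩,
      fun σ hσ hi => ?_⟩
    · rw [Pi.add_apply, h1 σ hσ, k1 σ hσ, add_zero]
    · rw [Pi.add_apply, Pi.add_apply, Pi.add_apply, h2 σ hσ τ hτ, k2 σ hσ τ hτ]
      abel
    · rw [Pi.add_apply, h3 σ hσ hu.1, k3 σ hσ hu.2, add_zero]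
    · rw [Pi.add_apply, h4 σ hσ hi, k4 σ hσ hi, add_zero]
  zero_mem' := ⟨fun _ _ => rfl, fun _ _ _ _ => by simp, ⟨⊤, s.top, fun _ _ _ => rfl⟩,
    fun _ _ _ => rfl⟩
  smul_mem' := by
    rintro c φ ⟨h1, h2, ⟨U, hU, h3⟩, h4⟩
    refine ⟨fun σ hσ => ?_, fun σ hσ τ hτ => ?_, ⟨U, hU, fun σ hσ hu => ?_⟩, fun σ hσ hi => ?_⟩
    · rw [Pi.smul_apply, h1 σ hσ, smul_zero]
    · rw [Pi.smul_apply, Pi.smul_apply, Pi.smul_apply, h2 σ hσ τ hτ, smul_add]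
    · rw [Pi.smul_apply, h3 σ hσ hu, smul_zero]
    · rw [Pi.smul_apply, h4 σ hσ hi, smul_zero]

theorem Sys.H_inv {K : Subgroup A} {φ : A → ZMod p} (hφ : φ ∈ s.H p K) {σ : A} (hσ : σ ∈ K) :
    φ σ⁻¹ = - φ σ := by
  have h0 : φ 1 = 0 := by
    have h1 := hφ.2.1 1 K.one_mem 1 K.one_mem
    rw [mul_one] at h1
    exact left_eq_add.1 h1
  have h2 := hφ.2.1 σ⁻¹ (K.inv_mem hσ) σ hσ
  rw [inv_mul_cancel, h0] at h2
  exact eq_neg_of_add_eq_zero_left h2.symm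

/-- If there are finitely many homomorphisms of a subgroup of finite index then there are finitely many
homomorphisms of the group. -/
theorem Sys.H_mono [Fact p.Prime] {K N : Subgroup A} (hN : N ≤ K) (h : Finite (s.H p N)) {C : Type}
    (c : A → C) (T : Finset C) (hT : ∀ σ, c σ ∈ T)
    (hc : ∀ σ ∈ K, ∀ τ ∈ K, c σ = c τ → τ⁻¹ * σ ∈ N) : Finite (s.H p K) := by
  classical
  let t : C → A := fun a => if h : ∃ σ ∈ K, c σ = a then Classical.choose h else 1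
  have hm : ∀ φ ∈ s.H p K, (fun σ => if σ ∈ N then φ σ else 0) ∈ s.H p N := by
    rintro φ ⟨h1, h2, ⟨U, hU, h3⟩, h4⟩
    refine ⟨fun σ hσ => if_neg hσ, fun σ hσ τ hτ => ?_, ⟨U, hU, fun σ hσ hu => ?_⟩,
      fun σ hσ hi => ?_⟩
    · change (if σ * τ ∈ N then φ (σ * τ) else 0) = (if σ ∈ N then φ σ else 0) +
        (if τ ∈ N then φ τ else 0)
      rw [if_pos hσ, if_pos hτ, if_pos (N.mul_mem hσ hτ)]
      exact h2 σ (hN hσ) τ (hN hτ)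
    · change (if σ ∈ N then φ σ else 0) = 0
      rw [if_pos hσ]
      exact h3 σ (hN hσ) hu
    · change (if σ ∈ N then φ σ else 0) = 0
      rw [if_pos hσ]
      exact h4 σ (hN hσ) hi
  let j : s.H p K → s.H p N × (T → ZMod p) := fun φ =>
    (⟨fun σ => if σ ∈ N then φ.1 σ else 0, hm φ.1 φ.2⟩, fun a => φ.1 (t a))
  refine Finite.of_injective j ?_
  intro φ ψ h
  apply Subtype.ext
  funext σ
  by_cases hσ : σ ∈ K
  · have h1 := congrArg Subtype.val (congrArg Prod.fst h)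
    have h2 : φ.1 (t (c σ)) = ψ.1 (t (c σ)) := congrFun (congrArg Prod.snd h) ⟨c σ, hT σ⟩
    have hex : ∃ σ' ∈ K, c σ' = c σ := ⟨σ, hσ, rfl⟩
    have ht : t (c σ) ∈ K ∧ c (t (c σ)) = c σ := by
      have h3 : t (c σ) = Classical.choose hex := dif_pos hex
      rw [h3]
      exact Classical.choose_spec hex
    have h3 := hc σ hσ _ ht.1 ht.2.symm
    have h4 : φ.1 ((t (c σ))⁻¹ * σ) = ψ.1 ((t (c σ))⁻¹ * σ) := by
      have h5 := congrFun h1 ((t (c σ))⁻¹ * σ)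
      change (if (t (c σ))⁻¹ * σ ∈ N then φ.1 ((t (c σ))⁻¹ * σ) else 0) =
        (if (t (c σ))⁻¹ * σ ∈ N then ψ.1 ((t (c σ))⁻¹ * σ) else 0) at h5
      rwa [if_pos h3, if_pos h3] at h5
    have h5 : σ = t (c σ) * ((t (c σ))⁻¹ * σ) := by group
    rw [h5, φ.2.2.1 _ ht.1 _ (hN h3), ψ.2.2.1 _ ht.1 _ (hN h3), h2, h4]
  · rw [φ.2.1 σ hσ, ψ.2.1 σ hσ]

/-- A normal subgroup `Z`, a subgroup `St` and a homomorphism of `St` onto `Γ` whose kernel is open and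
contains the inertia elements. -/
structure Frame (s : Sys A) (Γ : Type) [Group Γ] where
  Z : Subgroup A
  normal : ∀ σ ∈ Z, ∀ g : A, g * σ * g⁻¹ ∈ Z
  St : Subgroup A
  π : St →* Γ
  surj : Function.Surjective π
  opA : ∃ U, s.Op U ∧ ∀ σ ∈ U, ∃ h : σ ∈ St, π ⟨σ, h⟩ = 1
  inA : ∀ σ ∈ s.In, ∃ h : σ ∈ St, π ⟨σ, h⟩ = 1

namespace Frame

variable {s} {Γ : Type} [Group Γ] (f : Frame s Γ)

open Classical in
/-- The projection, extended by `1`. -/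
noncomputable def pr (σ : A) : Γ := if h : σ ∈ f.St then f.π ⟨σ, h⟩ else 1

theorem pr_of {σ : A} (h : σ ∈ f.St) : f.pr σ = f.π ⟨σ, h⟩ := dif_pos h

theorem pr_mul {σ τ : A} (hσ : σ ∈ f.St) (hτ : τ ∈ f.St) : f.pr (σ * τ) = f.pr σ * f.pr τ := by
  rw [f.pr_of hσ, f.pr_of hτ, f.pr_of (f.St.mul_mem hσ hτ), ← map_mul]
  rfl

theorem pr_one : f.pr 1 = 1 := by
  rw [f.pr_of f.St.one_mem]
  exact map_one f.π

theorem pr_inv {σ : A} (hσ : σ ∈ f.St) : f.pr σ⁻¹ = (f.pr σ)⁻¹ := by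
  rw [f.pr_of hσ, f.pr_of (f.St.inv_mem hσ), ← map_inv]
  rfl

/-- The subgroup over `D`. -/
def K (D : Subgroup Γ) : Subgroup A where
  carrier := {σ | σ ∈ f.Z ∧ σ ∈ f.St ∧ f.pr σ ∈ D}
  mul_mem' := by
    rintro σ τ ⟨h1, h2, h3⟩ ⟨k1, k2, k3⟩
    refine ⟨f.Z.mul_mem h1 k1, f.St.mul_mem h2 k2, ?_⟩
    rw [f.pr_mul h2 k2]
    exact D.mul_mem h3 k3
  one_mem' := ⟨f.Z.one_mem, f.St.one_mem, by rw [f.pr_one]; exact D.one_mem⟩
  inv_mem' := by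
    rintro σ ⟨h1, h2, h3⟩
    refine ⟨f.Z.inv_mem h1, f.St.inv_mem h2, ?_⟩
    rw [f.pr_inv h2]
    exact D.inv_mem h3

theorem mem_K {D : Subgroup Γ} {σ : A} : σ ∈ f.K D ↔ σ ∈ f.Z ∧ σ ∈ f.St ∧ f.pr σ ∈ D := Iff.rfl

theorem mem_bot {σ : A} : σ ∈ f.K ⊥ ↔ σ ∈ f.Z ∧ σ ∈ f.St ∧ f.pr σ = 1 := Iff.rfl

theorem bot_le (D : Subgroup Γ) : f.K ⊥ ≤ f.K D := by
  rintro σ ⟨h1, h2, h3⟩
  refine ⟨h1, h2, ?_⟩
  rw [Subgroup.mem_bot.1 h3]
  exact D.one_mem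

theorem conj_bot {g : A} (hg : g ∈ f.St) {σ : A} : g⁻¹ * σ * g ∈ f.K ⊥ ↔ σ ∈ f.K ⊥ := by
  have key : ∀ g ∈ f.St, ∀ σ ∈ f.K ⊥, g⁻¹ * σ * g ∈ f.K ⊥ := by
    rintro g hg σ ⟨h1, h2, h3⟩
    rw [Subgroup.mem_bot] at h3
    refine ⟨?_, f.St.mul_mem (f.St.mul_mem (f.St.inv_mem hg) h2) hg, ?_⟩
    · have := f.normal σ h1 g⁻¹
      rwa [inv_inv] at this
    · rw [Subgroup.mem_bot, f.pr_mul (f.St.mul_mem (f.St.inv_mem hg) h2) hg,
        f.pr_mul (f.St.inv_mem hg) h2, h3, mul_one, f.pr_inv hg, inv_mul_cancel]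
  constructor
  · intro h
    have h1 := key g⁻¹ (f.St.inv_mem hg) _ h
    have h2 : g⁻¹⁻¹ * (g⁻¹ * σ * g) * g⁻¹ = σ := by group
    rwa [h2] at h1
  · exact key g hg σ

/-- Conjugation. -/
def cj (p : ℕ) (g : A) : (A → ZMod p) →ₗ[ZMod p] (A → ZMod p) where
  toFun φ σ := φ (g⁻¹ * σ * g)
  map_add' _ _ := rfl
  map_smul' _ _ := rfl

theorem cj_apply (g : A) (φ : A → ZMod p) (σ : A) : cj p g φ σ = φ (g⁻¹ * σ * g) := rfl

theorem cj_mul (g h : A) (φ : A → ZMod p) : cj p (g * h) φ = cj p g (cj p h φ) := by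
  funext σ
  rw [cj_apply, cj_apply, cj_apply]
  congr 1
  group

theorem cj_one (φ : A → ZMod p) : cj p (1 : A) φ = φ := by
  funext σ
  rw [cj_apply]
  congr 1
  group

theorem cj_inj (g : A) : Function.Injective (cj p g) := by
  intro φ ψ h
  have h1 := congrArg (cj p g⁻¹) h
  rwa [← cj_mul, ← cj_mul, inv_mul_cancel, cj_one, cj_one] at h1

theorem cj_mem {g : A} (hg : g ∈ f.St) {φ : A → ZMod p} (hφ : φ ∈ s.H p (f.K ⊥)) :
    cj p g φ ∈ s.H p (f.K ⊥) := by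
  obtain ⟨h1, h2, ⟨U, hU, h3⟩, h4⟩ := hφ
  refine ⟨fun σ hσ => ?_, fun σ hσ τ hτ => ?_, ?_, fun σ hσ hi => ?_⟩
  · rw [cj_apply]
    exact h1 _ fun h => hσ ((f.conj_bot hg).1 h)
  · rw [cj_apply, cj_apply, cj_apply, ← h2 _ ((f.conj_bot hg).2 hσ) _ ((f.conj_bot hg).2 hτ)]
    congr 1
    group
  · obtain ⟨U', hU', h⟩ := s.conj U hU g⁻¹
    refine ⟨U', hU', fun σ hσ hu => ?_⟩
    rw [cj_apply]
    refine h3 _ ((f.conj_bot hg).2 hσ) ?_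
    have := h σ hu
    rwa [inv_inv] at this
  · rw [cj_apply]
    refine h4 _ ((f.conj_bot hg).2 hσ) ?_
    have := s.in_conj σ hi g⁻¹
    rwa [inv_inv] at this

theorem cj_triv {g : A} (hg : g ∈ f.K ⊥) {φ : A → ZMod p} (hφ : φ ∈ s.H p (f.K ⊥)) :
    cj p g φ = φ := by
  funext σ
  rw [cj_apply]
  by_cases hσ : σ ∈ f.K ⊥
  · rw [hφ.2.1 _ ((f.K ⊥).mul_mem ((f.K ⊥).inv_mem hg) hσ) _ hg,
      hφ.2.1 _ ((f.K ⊥).inv_mem hg) _ hσ, s.H_inv p hφ hg]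
    abel
  · rw [hφ.1 _ hσ, hφ.1 _ fun h => hσ ((f.conj_bot hg.2.1).1 h)]

/-- The invariants. -/
def Inv (p : ℕ) (D : Subgroup Γ) : Set (A → ZMod p) :=
  {φ | φ ∈ s.H p (f.K ⊥) ∧ ∀ g ∈ f.K D, cj p g φ = φ}

/-- If there are finitely many homomorphisms of the subgroup over `D`, then there are finitely many
invariant homomorphisms of the subgroup over `⊥`. -/
theorem inv_finite [Fact p.Prime] [Finite Γ] (D : Subgroup Γ) (hfin : Finite (s.H p (f.K D))) :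
    Finite (f.Inv p D) ∧
      Nat.card (f.Inv p D) ≤ p ^ (Nat.card Γ ^ 2) * Nat.card (s.H p (f.K D)) := by
  classical
  let t : Γ → A := fun γ => if γ = 1 then 1 else
    if h : ∃ σ ∈ f.K D, f.pr σ = γ then Classical.choose h else 1
  have ht1 : t 1 = 1 := if_pos rfl
  have htK : ∀ γ, t γ ∈ f.K D := by
    intro γ
    change (if γ = 1 then 1 else
      if h : ∃ σ ∈ f.K D, f.pr σ = γ then Classical.choose h else 1) ∈ f.K D
    split_ifs with h1 h2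
    · exact (f.K D).one_mem
    · exact (Classical.choose_spec h2).1
    · exact (f.K D).one_mem
  have htp : ∀ σ ∈ f.K D, f.pr (t (f.pr σ)) = f.pr σ := by
    intro σ hσ
    change f.pr (if f.pr σ = 1 then 1 else
      if h : ∃ σ' ∈ f.K D, f.pr σ' = f.pr σ then Classical.choose h else 1) = f.pr σ
    by_cases h1 : f.pr σ = 1
    · rw [if_pos h1, h1, f.pr_one]
    · rw [if_neg h1, dif_pos ⟨σ, hσ, rfl⟩]
      exact (Classical.choose_spec (⟨σ, hσ, rfl⟩ : ∃ σ' ∈ f.K D, f.pr σ' = f.pr σ)).2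
  -- the difference from the representative
  have hd : ∀ σ ∈ f.K D, σ * (t (f.pr σ))⁻¹ ∈ f.K ⊥ := by
    intro σ hσ
    have h1 := (f.K D).mul_mem hσ ((f.K D).inv_mem (htK (f.pr σ)))
    refine ⟨h1.1, h1.2.1, ?_⟩
    rw [Subgroup.mem_bot, f.pr_mul hσ.2.1 (f.St.inv_mem (htK _).2.1),
      f.pr_inv (htK _).2.1, htp σ hσ, mul_inv_cancel]
  let c : (A → ZMod p) → (Γ × Γ → ZMod p) := fun φ x => φ (t x.1 * t x.2 * (t (x.1 * x.2))⁻¹)
  let Ex : (A → ZMod p) → (A → ZMod p) := fun φ σ =>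
    if σ ∈ f.K D then φ (σ * (t (f.pr σ))⁻¹) else 0
  have hEb : ∀ φ : A → ZMod p, ∀ σ ∈ f.K ⊥, Ex φ σ = φ σ := by
    intro φ σ hσ
    change (if σ ∈ f.K D then φ (σ * (t (f.pr σ))⁻¹) else 0) = φ σ
    rw [if_pos (f.bot_le D hσ), (f.mem_bot.1 hσ).2.2, ht1, inv_one, mul_one]
  have hEx : ∀ φ ∈ f.Inv p D, c φ = 0 → Ex φ ∈ s.H p (f.K D) := by
    rintro φ ⟨hφ, hinv⟩ hc
    have hE : ∀ σ ∈ f.K D, Ex φ σ = φ (σ * (t (f.pr σ))⁻¹) := fun σ hσ => if_pos hσ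
    refine ⟨fun σ hσ => if_neg hσ, fun σ hσ τ hτ => ?_, ?_, fun σ hσ hi => ?_⟩
    · rw [hE _ ((f.K D).mul_mem hσ hτ), hE σ hσ, hE τ hτ, f.pr_mul hσ.2.1 hτ.2.1]
      have h1 : σ * τ * (t (f.pr σ * f.pr τ))⁻¹ =
          (σ * (t (f.pr σ))⁻¹) * ((t (f.pr σ)) * (τ * (t (f.pr τ))⁻¹) * (t (f.pr σ))⁻¹) *
            (t (f.pr σ) * t (f.pr τ) * (t (f.pr σ * f.pr τ))⁻¹) := by group
      have h2 : (t (f.pr σ)) * (τ * (t (f.pr τ))⁻¹) * (t (f.pr σ))⁻¹ ∈ f.K ⊥ := by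
        have h3 := (f.conj_bot (f.St.inv_mem (htK (f.pr σ)).2.1)).2 (hd τ hτ)
        rwa [inv_inv] at h3
      have h3 : t (f.pr σ) * t (f.pr τ) * (t (f.pr σ * f.pr τ))⁻¹ ∈ f.K ⊥ := by
        have h4 := (f.K D).mul_mem ((f.K D).mul_mem (htK (f.pr σ)) (htK (f.pr τ)))
          ((f.K D).inv_mem (htK (f.pr σ * f.pr τ)))
        refine ⟨h4.1, h4.2.1, ?_⟩
        rw [Subgroup.mem_bot, f.pr_mul (f.St.mul_mem (htK _).2.1 (htK _).2.1)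
          (f.St.inv_mem (htK _).2.1), f.pr_mul (htK _).2.1 (htK _).2.1, f.pr_inv (htK _).2.1,
          htp σ hσ, htp τ hτ]
        have h5 := htp _ ((f.K D).mul_mem hσ hτ)
        rw [f.pr_mul hσ.2.1 hτ.2.1] at h5
        rw [h5, mul_inv_cancel]
      have h4 : φ (t (f.pr σ) * t (f.pr τ) * (t (f.pr σ * f.pr τ))⁻¹) = 0 :=
        congrFun hc (f.pr σ, f.pr τ)
      have h5 : φ ((t (f.pr σ)) * (τ * (t (f.pr τ))⁻¹) * (t (f.pr σ))⁻¹) =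
          φ (τ * (t (f.pr τ))⁻¹) := by
        have h6 := congrFun (hinv _ ((f.K D).inv_mem (htK (f.pr σ)))) (τ * (t (f.pr τ))⁻¹)
        rw [cj_apply, inv_inv] at h6
        exact h6
      rw [h1, hφ.2.1 _ ((f.K ⊥).mul_mem (hd σ hσ) h2) _ h3, hφ.2.1 _ (hd σ hσ) _ h2, h4, h5,
        add_zero]
    · obtain ⟨U, hU, h3⟩ := hφ.2.2.1
      obtain ⟨U', hU', h4⟩ := f.opA
      refine ⟨U ⊓ U', s.inf _ _ hU hU', fun σ hσ hu => ?_⟩
      obtain ⟨h5, h6⟩ := h4 σ hu.2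
      have h7 : σ ∈ f.K ⊥ := ⟨hσ.1, h5, by rw [f.pr_of h5, h6]; exact Subgroup.one_mem _⟩
      rw [hEb φ σ h7]
      exact h3 σ h7 hu.1
    · obtain ⟨h5, h6⟩ := f.inA σ hi
      have h7 : σ ∈ f.K ⊥ := ⟨hσ.1, h5, by rw [f.pr_of h5, h6]; exact Subgroup.one_mem _⟩
      rw [hEb φ σ h7]
      exact hφ.2.2.2 σ h7 hi
  have hrep : ∀ φ : f.Inv p D, ∃ ψ : A → ZMod p, ψ ∈ f.Inv p D ∧ c ψ = c φ.1 := fun φ =>
    ⟨φ.1, φ.2, rfl⟩
  let rep : (Γ × Γ → ZMod p) → (A → ZMod p) := fun y =>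
    if h : ∃ ψ : A → ZMod p, ψ ∈ f.Inv p D ∧ c ψ = y then Classical.choose h else 0
  have hrep1 : ∀ φ : f.Inv p D, rep (c φ.1) ∈ f.Inv p D ∧ c (rep (c φ.1)) = c φ.1 := by
    intro φ
    have h1 := hrep φ
    have h2 : rep (c φ.1) = Classical.choose h1 := dif_pos h1
    rw [h2]
    exact Classical.choose_spec h1
  have hsub : ∀ φ : f.Inv p D, φ.1 - rep (c φ.1) ∈ f.Inv p D ∧ c (φ.1 - rep (c φ.1)) = 0 := by
    intro φ
    obtain ⟨h1, h2⟩ := hrep1 φ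
    refine ⟨⟨Submodule.sub_mem _ φ.2.1 h1.1, fun g hg => ?_⟩, ?_⟩
    · rw [map_sub, φ.2.2 g hg, h1.2 g hg]
    · have h3 : c (φ.1 - rep (c φ.1)) = c φ.1 - c (rep (c φ.1)) := rfl
      rw [h3, h2, sub_self]
  let j : f.Inv p D → (Γ × Γ → ZMod p) × s.H p (f.K D) := fun φ =>
    (c φ.1, ⟨Ex (φ.1 - rep (c φ.1)), hEx _ (hsub φ).1 (hsub φ).2⟩)
  have hj : Function.Injective j := by
    intro φ ψ h
    have h1 : c φ.1 = c ψ.1 := congrArg Prod.fst h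
    have h2 : Ex (φ.1 - rep (c φ.1)) = Ex (ψ.1 - rep (c ψ.1)) :=
      congrArg Subtype.val (congrArg Prod.snd h)
    apply Subtype.ext
    have h3 : φ.1 - rep (c φ.1) = ψ.1 - rep (c ψ.1) := by
      funext σ
      by_cases hσ : σ ∈ f.K ⊥
      · rw [← hEb (φ.1 - rep (c φ.1)) σ hσ, h2]
        exact hEb _ σ hσ
      · rw [(hsub φ).1.1.1 σ hσ, (hsub ψ).1.1.1 σ hσ]
    rw [h1] at h3
    exact sub_left_injective h3
  refine ⟨Finite.of_injective j hj, (Nat.card_le_card_of_injective j hj).trans ?_⟩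
  rw [Nat.card_prod, Nat.card_fun, Nat.card_prod, Nat.card_zmod, pow_two]

/-- **The main lemma.** -/
theorem finite_of_dom [Fact p.Prime] [Fintype Γ] {ι : Type} [Fintype ι] (D : ι → Subgroup Γ)
    (hdom : Dominates p ⊥ D) (hfin : ∀ i, Finite (s.H p (f.K (D i)))) :
    Finite (s.H p (f.K ⊥)) ∧ Nat.card (s.H p (f.K ⊥)) ≤
      (∏ i, p ^ (Nat.card Γ ^ 2) * Nat.card (s.H p (f.K (D i)))) ^ (Nat.card Γ ^ 2) := by
  let ρ : f.K ⊤ →* Γ := MonoidHom.mk' (fun z => f.pr z) (fun x y => by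
    rw [Subgroup.coe_mul, f.pr_mul x.2.2.1 y.2.2.1])
  let r : f.K ⊤ →* Module.End (ZMod p) (s.H p (f.K ⊥)) :=
    { toFun := fun z => (cj p (z : A)).restrict fun φ hφ => f.cj_mem p z.2.2.1 hφ
      map_one' := LinearMap.ext fun φ => Subtype.ext (cj_one p φ.1)
      map_mul' := fun x y => LinearMap.ext fun φ => Subtype.ext (cj_mul p x.1 y.1 φ.1) }
  have hr : ∀ (z : f.K ⊤) (φ : s.H p (f.K ⊥)), ((r z φ : s.H p (f.K ⊥)) : A → ZMod p) =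
      cj p (z : A) φ := fun z φ => rfl
  have hFx : ∀ i (γ : Γ), ∃ j : Fx ρ r (D i) γ → f.Inv p (D i), Function.Injective j := by
    intro i γ
    obtain ⟨τ, hτ⟩ := f.surj γ
    have hτ1 : f.pr τ.1 = γ := by rw [f.pr_of τ.2, hτ]
    refine ⟨fun φ => ⟨cj p (τ : A)⁻¹ φ.1.1, f.cj_mem p (f.St.inv_mem τ.2) φ.1.2, fun g hg => ?_⟩, ?_⟩
    · have h1 : (τ : A) * g * (τ : A)⁻¹ ∈ f.K ⊤ :=
        ⟨f.normal g hg.1 τ, f.St.mul_mem (f.St.mul_mem τ.2 hg.2.1) (f.St.inv_mem τ.2),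
          Subgroup.mem_top _⟩
      have h2 := φ.2 ⟨_, h1⟩ (by
        change γ⁻¹ * f.pr ((τ : A) * g * (τ : A)⁻¹) * γ ∈ D i
        rw [f.pr_mul (f.St.mul_mem τ.2 hg.2.1) (f.St.inv_mem τ.2), f.pr_mul τ.2 hg.2.1,
          f.pr_inv τ.2, hτ1]
        have h3 : γ⁻¹ * (γ * f.pr g * γ⁻¹) * γ = f.pr g := by group
        rw [h3]
        exact hg.2.2)
      have h3 : cj p ((τ : A) * g * (τ : A)⁻¹) φ.1.1 = φ.1.1 := congrArg Subtype.val h2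
      change cj p g (cj p (τ : A)⁻¹ φ.1.1) = cj p (τ : A)⁻¹ φ.1.1
      rw [← cj_mul]
      conv_rhs => rw [← h3]
      rw [← cj_mul]
      congr 1
      group
    · intro φ ψ h
      exact Subtype.ext (Subtype.ext (cj_inj p _ (congrArg Subtype.val h)))
  choose j hj using hFx
  have hI := fun i => f.inv_finite p (D i) (hfin i)
  have hIf : ∀ i, Finite (f.Inv p (D i)) := fun i => (hI i).1
  obtain ⟨h1, h2⟩ := core ρ r (fun h hh => by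
    refine LinearMap.ext fun φ => Subtype.ext ?_
    rw [hr]
    exact f.cj_triv p ⟨h.2.1, h.2.2.1, by rw [show f.pr h = 1 from hh]; exact Subgroup.one_mem _⟩
      φ.2) D hdom fun i γ => Finite.of_injective (j i γ) (hj i γ)
  refine ⟨h1, h2.trans ?_⟩
  have h3 : (∏ x : ι × Γ, Nat.card (Fx ρ r (D x.1) x.2)) ≤
      (∏ i, p ^ (Nat.card Γ ^ 2) * Nat.card (s.H p (f.K (D i)))) ^ Nat.card Γ := by
    rw [Fintype.prod_prod_type, ← Finset.prod_pow]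
    refine Finset.prod_le_prod' fun i _ => ?_
    refine (Finset.prod_le_pow_card Finset.univ _
      (p ^ (Nat.card Γ ^ 2) * Nat.card (s.H p (f.K (D i)))) fun γ _ => ?_).trans ?_
    · exact (Nat.card_le_card_of_injective (j i γ) (hj i γ)).trans (hI i).2
    · rw [Finset.card_univ, Nat.card_eq_fintype_card]
  calc (∏ x : ι × Γ, Nat.card (Fx ρ r (D x.1) x.2)) ^ Nat.card Γ
      ≤ ((∏ i, p ^ (Nat.card Γ ^ 2) * Nat.card (s.H p (f.K (D i)))) ^ Nat.card Γ) ^ Nat.card Γ :=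
        Nat.pow_le_pow_left h3 _
    _ = _ := by rw [← pow_mul, pow_two]

end Frame

end Pool.Agent.H24MU
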