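import Mathlib
import Pool.Agent.H24MU.Grp
import Pool.Agent.H24MU.St

/-!
# Number fields: the frame
-/

set_option autoImplicit false

namespace Pool.Agent.H24MU

open IntermediateField Pool.Agent.H24MU.St Pool.Agent.X310.Mu

theorem alg_QB : Algebra.IsAlgebraic ℚ QB := by
  have h := AlgebraicClosure.isAlgebraic ℚ
  have e : (AlgebraicClosure.instAlgebra ℚ : Algebra ℚ (AlgebraicClosure ℚ)) =
    DivisionRing.toRatAlgebra := Subsingleton.elim _ _
  exact e ▸ h

attribute [local instance] alg_QB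

/-- The algebraic integers. -/
noncomputable abbrev OB : Subalgebra ℤ QB := integralClosure ℤ QB

theorem in_conj (S : Finset ℕ) (σ : QB ≃ₐ[ℚ] QB) (hσ : IsInertia S σ) (g : QB ≃ₐ[ℚ] QB) :
    IsInertia S (g * σ * g⁻¹) := by
  obtain ⟨P, hP, hq, hI⟩ := hσ
  let e : OB ≃ₐ[ℤ] OB := (g⁻¹.restrictScalars ℤ).mapIntegralClosure
  have he : ∀ x : OB, ((e x : OB) : QB) = g⁻¹ x := fun x => rfl
  refine ⟨P.comap e.toRingEquiv, Ideal.comap_isMaximal_of_equiv e.toRingEquiv, fun q hqS h => ?_,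
    fun x y hxy => ?_⟩
  · apply hq q hqS
    rw [Ideal.mem_comap] at h
    have h1 : e.toRingEquiv (q : OB) = (q : OB) := map_natCast _ _
    rwa [h1] at h
  · rw [Ideal.mem_comap, map_sub]
    apply hI
    change ((e y : OB) : QB) = σ ((e x : OB) : QB)
    rw [he, he, hxy]
    change g⁻¹ (g (σ (g⁻¹ x))) = σ (g⁻¹ x)
    exact g.symm_apply_apply _

/-- The system. -/
def sys (S : Finset ℕ) : Sys (QB ≃ₐ[ℚ] QB) where
  Op U := ∃ E : IntermediateField ℚ QB, FiniteDimensional ℚ E ∧ E.fixingSubgroup ≤ U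
  top := ⟨⊥, inferInstance, le_top⟩
  inf := by
    rintro U V ⟨E, hE, h⟩ ⟨E', hE', h'⟩
    refine ⟨E ⊔ E', inferInstance, ?_⟩
    rw [fixingSubgroup_sup]
    exact inf_le_inf h h'
  conj := by
    rintro U ⟨E, hE, h⟩ g
    refine ⟨(E.map (g⁻¹ : QB ≃ₐ[ℚ] QB).toAlgHom).fixingSubgroup, ⟨_, ?_, le_rfl⟩,
      fun σ hσ => h ?_⟩
    · exact LinearEquiv.finiteDimensional (E.intermediateFieldMap g⁻¹).toLinearEquiv
    · rw [IntermediateField.mem_fixingSubgroup_iff] at hσ ⊢
      intro x hx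
      change g (σ (g⁻¹ x)) = x
      rw [hσ (g⁻¹ x) ⟨x, hx, rfl⟩]
      exact g.apply_symm_apply x
  In := {σ | IsInertia S σ}
  in_conj := in_conj S

section ram

theorem exists_dvd {β : OB} (hβ : β ≠ 0) : ∃ n : ℤ, n ≠ 0 ∧ ∀ P : Ideal OB, β ∈ P → (n : OB) ∈ P := by
  have h1 := Ideal.comap_ne_bot_of_integral_mem (R := ℤ) hβ (Ideal.mem_span_singleton_self β)
    (Algebra.IsIntegral.isIntegral β)
  obtain ⟨n, hn, hn0⟩ := Submodule.exists_mem_ne_zero_of_ne_bot h1
  refine ⟨n, hn0, fun P hP => ?_⟩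
  have h2 : Ideal.span {β} ≤ P := (Ideal.span_singleton_le_iff_mem P).2 hP
  have h3 := h2 (Ideal.mem_comap.1 hn)
  rwa [eq_intCast] at h3

/-- All but finitely many primes are unramified in a number field. -/
theorem exists_ram (F : IntermediateField ℚ QB) [FiniteDimensional ℚ F] :
    ∃ R : Finset ℕ, (∀ q ∈ R, q.Prime) ∧ UnramifiedOutside R F := by
  classical
  obtain ⟨α, hα⟩ := Field.exists_primitive_element ℚ F
  obtain ⟨d, hd0, hd⟩ := ((IsFractionRing.isAlgebraic_iff ℤ ℚ QB).2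
    (Algebra.IsAlgebraic.isAlgebraic (R := ℚ) (α : QB))).exists_integral_multiple
  let θ : OB := ⟨d • (α : QB), hd⟩
  -- the conjugates of θ
  let m := minpoly ℚ (θ : QB)
  have hint : IsIntegral ℚ (θ : QB) := (Algebra.IsAlgebraic.isAlgebraic (θ : QB)).isIntegral
  have hm : m ≠ 0 := minpoly.ne_zero hint
  have hroot : ∀ σ : QB ≃ₐ[ℚ] QB, σ (θ : QB) ∈ (m.aroots QB).toFinset := by
    intro σ
    rw [Multiset.mem_toFinset, Polynomial.mem_aroots]
    refine ⟨hm, ?_⟩
    exact (Polynomial.aeval_algHom_apply σ.toAlgHom (θ : QB) m).trans (by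
      rw [minpoly.aeval, map_zero])
  have hn : ∀ a : QB, ∃ n : ℤ, n ≠ 0 ∧ ∀ β : OB, (β : QB) = a - θ → β ≠ 0 →
      ∀ P : Ideal OB, β ∈ P → (n : OB) ∈ P := by
    intro a
    by_cases h : ∃ β : OB, (β : QB) = a - θ ∧ β ≠ 0
    · obtain ⟨β, hβ, hβ0⟩ := h
      obtain ⟨n, hn0, hn⟩ := exists_dvd hβ0
      refine ⟨n, hn0, fun β' hβ' _ P hP => hn P ?_⟩
      have h1 : β = β' := Subtype.ext (hβ.trans hβ'.symm)
      rw [h1]
      exact hP
    · exact ⟨1, one_ne_zero, fun β hβ hβ0 => absurd ⟨β, hβ, hβ0⟩ h⟩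
  choose n hn0 hn using hn
  let Δ : ℤ := ∏ a ∈ (m.aroots QB).toFinset, n a
  have hΔ : Δ ≠ 0 := Finset.prod_ne_zero_iff.2 fun a _ => hn0 a
  refine ⟨Δ.natAbs.primeFactors, fun q hq => Nat.prime_of_mem_primeFactors hq, ?_⟩
  rintro σ ⟨P, hP, hPq, hσ⟩
  have hθ : σ (θ : QB) = θ := by
    by_contra hne
    have hi : IsIntegral ℤ (σ (θ : QB)) := θ.2.map (σ.toAlgHom.restrictScalars ℤ)
    let y : OB := ⟨σ (θ : QB), hi⟩
    have h1 : y - θ ∈ P := hσ θ y rfl
    have h2 : ((y - θ : OB) : QB) = σ (θ : QB) - θ := rfl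
    have h3 : (y - θ : OB) ≠ 0 := fun h => hne (by
      have h4 := congrArg (fun z : OB => (z : QB)) h
      exact sub_eq_zero.1 h4)
    have h4 : ((n (σ (θ : QB)) : ℤ) : OB) ∈ P := hn _ _ h2 h3 P h1
    have h5 : (Δ : OB) ∈ P := by
      obtain ⟨k, hk⟩ := Finset.dvd_prod_of_mem n (hroot σ)
      change ((∏ a ∈ (m.aroots QB).toFinset, n a : ℤ) : OB) ∈ P
      rw [hk, Int.cast_mul]
      exact P.mul_mem_right _ h4
    have h6 : ((Δ.natAbs : ℕ) : OB) ∈ P := by
      rcases Int.natAbs_eq Δ with h | h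
      · rw [h, Int.cast_natCast] at h5
        exact h5
      · rw [h, Int.cast_neg, Int.cast_natCast] at h5
        exact P.neg_mem_iff.1 h5
    have h7 : ∀ k : ℕ, k ≠ 0 → ((k : ℕ) : OB) ∈ P → ∃ q ∈ k.primeFactors, (q : OB) ∈ P := by
      intro k
      induction k using Nat.recOnMul with
      | zero => exact fun h => absurd rfl h
      | one =>
        intro _ h
        rw [Nat.cast_one] at h
        exact absurd ((Ideal.eq_top_iff_one P).2 h) hP.ne_top
      | prime q hq =>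
        intro _ h
        exact ⟨q, by rw [hq.primeFactors]; exact Finset.mem_singleton_self q, h⟩
      | mul a b ha hb =>
        intro hab h
        have ha0 : a ≠ 0 := fun h => hab (by rw [h, zero_mul])
        have hb0 : b ≠ 0 := fun h => hab (by rw [h, mul_zero])
        rw [Nat.cast_mul] at h
        rw [Nat.primeFactors_mul ha0 hb0]
        rcases hP.isPrime.mem_or_mem h with h | h
        · obtain ⟨q, hq, hq'⟩ := ha ha0 h
          exact ⟨q, Finset.mem_union_left _ hq, hq'⟩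
        · obtain ⟨q, hq, hq'⟩ := hb hb0 h
          exact ⟨q, Finset.mem_union_right _ hq, hq'⟩
    obtain ⟨q, hq, hqP⟩ := h7 _ (Int.natAbs_ne_zero.2 hΔ) h6
    exact hPq q hq hqP
  have hα1 : σ (α : QB) = α := by
    have h1 : ((d : ℤ) • (α : QB)) = (θ : QB) := rfl
    have h2 : σ (d • (α : QB)) = d • σ (α : QB) := map_zsmul σ d _
    have h3 : (d : ℤ) • σ (α : QB) = (d : ℤ) • (α : QB) := by
      rw [← h2, h1, hθ]
    exact smul_right_injective QB hd0 h3
  have h1 : ∀ x : F, σ (x : QB) = x := by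
    intro x
    have h2 : x ∈ ℚ⟮α⟯ := by
      rw [hα]
      exact mem_top
    induction h2 using adjoin_induction with
    | mem y hy =>
      rw [Set.mem_singleton_iff.1 hy]
      exact hα1
    | algebraMap q => exact σ.commutes q
    | add y z _ _ hy hz =>
      change σ ((y : QB) + z) = y + z
      rw [map_add, hy, hz]
    | mul y z _ _ hy hz =>
      change σ ((y : QB) * z) = y * z
      rw [map_mul, hy, hz]
    | inv y _ hy =>
      change σ ((y : QB)⁻¹) = (y : QB)⁻¹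
      rw [map_inv₀, hy]
  exact fun x hx => h1 ⟨x, hx⟩

end ram

end Pool.Agent.H24MU
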