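import Mathlib
import Pool.Agent.H24MU.Fld

/-!
# The frame of a number field
-/

set_option autoImplicit false

namespace Pool.Agent.H24MU

open IntermediateField Pool.Agent.H24MU.St Pool.Agent.X310.Mu

attribute [local instance] alg_QB

theorem exists_ext (F : IntermediateField ℚ QB) (γ : F ≃ₐ[ℚ] F) :
    ∃ g : QB ≃ₐ[ℚ] QB, ∀ x : F, g (x : QB) = (γ x : QB) := by
  have h1 : Algebra.IsAlgebraic F QB := Algebra.IsAlgebraic.tower_top (K := ℚ) F
  obtain ⟨ψ, hψ⟩ := IsAlgClosed.surjective_domRestrict_of_isAlgebraic (K := ℚ) (L := F) (M := QB)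
    (E := QB) (F.val.comp γ.toAlgHom)
  refine ⟨AlgEquiv.ofBijective ψ (Algebra.IsAlgebraic.algHom_bijective ψ), fun x => ?_⟩
  exact DFunLike.congr_fun hψ x

/-- The automorphisms which map `F` to itself. -/
def St (F : IntermediateField ℚ QB) : Subgroup (QB ≃ₐ[ℚ] QB) where
  carrier := {g | ∃ γ : F ≃ₐ[ℚ] F, ∀ x : F, g (x : QB) = (γ x : QB)}
  mul_mem' := by
    rintro g h ⟨γ, hγ⟩ ⟨δ, hδ⟩
    refine ⟨γ * δ, fun x => ?_⟩
    change g (h (x : QB)) = _
    rw [hδ, hγ]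
    rfl
  one_mem' := ⟨1, fun x => rfl⟩
  inv_mem' := by
    rintro g ⟨γ, hγ⟩
    refine ⟨γ⁻¹, fun x => ?_⟩
    apply g.injective
    rw [hγ]
    have h1 : g (g⁻¹ (x : QB)) = x := g.apply_symm_apply _
    have h2 : γ (γ⁻¹ x) = x := γ.apply_symm_apply _
    rw [h1, h2]

/-- The restriction to `F`. -/
noncomputable def res (F : IntermediateField ℚ QB) : St F →* (F ≃ₐ[ℚ] F) :=
  MonoidHom.mk' (fun g => Classical.choose g.2) (by
    intro g h
    ext x
    have h1 := Classical.choose_spec g.2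
    have h2 := Classical.choose_spec h.2
    have h3 := Classical.choose_spec (g * h).2
    rw [← h3 x]
    change g.1 (h.1 (x : QB)) = _
    rw [h2, h1]
    rfl)

theorem res_spec {F : IntermediateField ℚ QB} (g : St F) (x : F) :
    g.1 (x : QB) = (res F g x : QB) := Classical.choose_spec g.2 x

theorem res_eq {F : IntermediateField ℚ QB} (g : St F) (γ : F ≃ₐ[ℚ] F)
    (h : ∀ x : F, g.1 (x : QB) = (γ x : QB)) : res F g = γ := by
  ext x
  rw [← res_spec, h]

theorem Qinf_normal (p : ℕ) : (Qinf p).fixingSubgroup.Normal := by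
  have h : ∀ B : {B : IntermediateField ℚ QB // IsGalois ℚ B ∧ (∃ n, Module.finrank ℚ B = p ^ n) ∧
    ∃ n, B ≤ adjoin ℚ {z : QB | z ^ p ^ n = 1}}, @Normal ℚ B.1 _ _ B.1.algebra' := fun B =>
    (isGalois_iff.1 B.2.1).2
  have h1 := IntermediateField.normal_iSup (F := ℚ) (K := QB)
    (fun B : {B : IntermediateField ℚ QB // IsGalois ℚ B ∧ (∃ n, Module.finrank ℚ B = p ^ n) ∧
      ∃ n, B ≤ adjoin ℚ {z : QB | z ^ p ^ n = 1}} => B.1) (h := h)
  have h0 : Qinf p = ⨆ B : {B : IntermediateField ℚ QB // IsGalois ℚ B ∧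
      (∃ n, Module.finrank ℚ B = p ^ n) ∧ ∃ n, B ≤ adjoin ℚ {z : QB | z ^ p ^ n = 1}}, B.1 :=
    sSup_eq_iSup'
      {B : IntermediateField ℚ QB | IsGalois ℚ B ∧ (∃ n, Module.finrank ℚ B = p ^ n) ∧
        ∃ n, B ≤ adjoin ℚ {z : QB | z ^ p ^ n = 1}}
  rw [← h0] at h1
  have h2 := @IntermediateField.restrictNormalHom_ker ℚ QB _ _ _ (Qinf p) h1
  rw [← h2]
  infer_instance

theorem mem_of_fix {F : IntermediateField ℚ QB} {σ : QB ≃ₐ[ℚ] QB}
    (hσ : σ ∈ F.fixingSubgroup) : ∃ h : σ ∈ St F, res F ⟨σ, h⟩ = 1 := by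
  have h1 := (IntermediateField.mem_fixingSubgroup_iff _ _).1 hσ
  have h : σ ∈ St F := ⟨1, fun x => h1 x x.2⟩
  exact ⟨h, res_eq _ _ fun x => h1 x x.2⟩

theorem normal_fix (Z : IntermediateField ℚ QB) (h : Normal ℚ Z) : Z.fixingSubgroup.Normal := by
  have h2 := @IntermediateField.restrictNormalHom_ker ℚ QB _ _ _ Z h
  rw [← h2]
  infer_instance

/-- The frame. -/
noncomputable def frame (S : Finset ℕ) (F : IntermediateField ℚ QB)
    [FiniteDimensional ℚ F] (Z : IntermediateField ℚ QB) (hZ : Z.fixingSubgroup.Normal)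
    (hS : UnramifiedOutside S F) : Frame (sys S) (F ≃ₐ[ℚ] F) where
  Z := Z.fixingSubgroup
  normal := fun σ hσ g => hZ.conj_mem σ hσ g
  St := St F
  π := res F
  surj := by
    intro γ
    obtain ⟨g, hg⟩ := exists_ext F γ
    exact ⟨⟨g, γ, hg⟩, res_eq _ _ hg⟩
  opA := ⟨F.fixingSubgroup, ⟨F, inferInstance, le_rfl⟩, fun σ hσ => mem_of_fix hσ⟩
  inA := by
    intro σ hσ
    exact mem_of_fix ((IntermediateField.mem_fixingSubgroup_iff _ _).2 (hS σ hσ))

theorem fx_bot (F : IntermediateField ℚ QB) : fx F ⊥ = F := by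
  apply le_antisymm (lift_le _)
  intro x hx
  refine ⟨⟨x, hx⟩, (IntermediateField.mem_fixedField_iff ⊥ _).2 ?_, rfl⟩
  intro f hf
  rw [Subgroup.mem_bot] at hf
  rw [hf]
  rfl

theorem mem_fx {F : IntermediateField ℚ QB} {D : Subgroup (F ≃ₐ[ℚ] F)} (x : F) :
    (x : QB) ∈ fx F D ↔ ∀ d ∈ D, d x = x := by
  constructor
  · rintro ⟨y, hy, h⟩
    have h1 : y = x := Subtype.ext h
    rw [← h1]
    exact (IntermediateField.mem_fixedField_iff _ _).1 hy
  · intro h
    exact ⟨x, (IntermediateField.mem_fixedField_iff _ _).2 h, rfl⟩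

/-- An automorphism which fixes `F^D` maps `F` to itself and its restriction belongs to `D`. -/
theorem fix_fx {F : IntermediateField ℚ QB} [FiniteDimensional ℚ F] {D : Subgroup (F ≃ₐ[ℚ] F)}
    {σ : QB ≃ₐ[ℚ] QB} (hσ : ∀ x ∈ fx F D, σ x = x) : ∃ h : σ ∈ St F, res F ⟨σ, h⟩ ∈ D := by
  have hF : ∀ x : F, σ (x : QB) ∈ F := by
    intro x
    have hG : IsGalois (fixedField D) F := IsGalois.of_fixed_field F D
    have hN : Normal (fixedField D) F := hG.to_normal
    have hsp := hN.splits x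
    let m := minpoly (fixedField D) x
    have h1 : (m.map (algebraMap (fixedField D) F)).map (algebraMap F QB) ≠ 0 := by
      rw [Polynomial.map_ne_zero_iff (algebraMap F QB).injective,
        Polynomial.map_ne_zero_iff (algebraMap (fixedField D) F).injective]
      exact minpoly.ne_zero (hN.isIntegral x)
    have h2 : ((m.map (algebraMap (fixedField D) F)).map (algebraMap F QB)).eval (σ (x : QB)) = 0 := by
      rw [Polynomial.map_map]
      have h3 : ((algebraMap F QB).comp (algebraMap (fixedField D) F)) =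
          (σ : QB →+* QB).comp ((algebraMap F QB).comp (algebraMap (fixedField D) F)) := by
        ext y
        change ((y : F) : QB) = σ ((y : F) : QB)
        exact (hσ _ ⟨y, y.2, rfl⟩).symm
      have h6 : Polynomial.eval₂ ((σ : QB →+* QB).comp
          ((algebraMap F QB).comp (algebraMap (fixedField D) F))) (σ (x : QB)) m =
          σ (Polynomial.eval₂ ((algebraMap F QB).comp (algebraMap (fixedField D) F)) (x : QB) m) :=
        (Polynomial.hom_eval₂ m _ (σ : QB →+* QB) (x : QB)).symm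
      rw [Polynomial.eval_map, h3, h6]
      have h4 : Polynomial.eval₂ ((algebraMap F QB).comp (algebraMap (fixedField D) F)) (x : QB) m =
          algebraMap F QB (Polynomial.eval₂ (algebraMap (fixedField D) F) x m) :=
        (Polynomial.hom_eval₂ m _ (algebraMap F QB) x).symm
      have h5 : Polynomial.eval₂ (algebraMap (fixedField D) F) x m = 0 :=
        minpoly.aeval (fixedField D) x
      rw [h4, h5, map_zero, map_zero]
    have h3 : σ (x : QB) ∈ ((m.map (algebraMap (fixedField D) F)).map (algebraMap F QB)).roots :=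
      (Polynomial.mem_roots h1).2 h2
    rw [hsp.roots_map] at h3
    obtain ⟨y, _, hy⟩ := Multiset.mem_map.1 h3
    rw [← hy]
    exact y.2
  let φ : F →ₐ[ℚ] F := (σ.toAlgHom.comp F.val).codRestrict F.toSubalgebra hF
  let γ : F ≃ₐ[ℚ] F := AlgEquiv.ofBijective φ (Algebra.IsAlgebraic.algHom_bijective φ)
  have hγ : ∀ x : F, σ (x : QB) = (γ x : QB) := fun x => rfl
  refine ⟨⟨γ, hγ⟩, ?_⟩
  rw [res_eq ⟨σ, ⟨γ, hγ⟩⟩ γ hγ, ← IntermediateField.fixingSubgroup_fixedField D,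
    IntermediateField.mem_fixingSubgroup_iff]
  intro x hx
  apply Subtype.ext
  rw [← hγ]
  exact hσ _ ⟨x, hx, rfl⟩

theorem frame_K (S : Finset ℕ) (F : IntermediateField ℚ QB)
    [FiniteDimensional ℚ F] (Z : IntermediateField ℚ QB) (hZ : Z.fixingSubgroup.Normal)
    (hS : UnramifiedOutside S F) (D : Subgroup (F ≃ₐ[ℚ] F)) :
    (frame S F Z hZ hS).K D = (fx F D ⊔ Z).fixingSubgroup := by
  rw [IntermediateField.fixingSubgroup_sup]
  ext σ
  rw [Frame.mem_K, Subgroup.mem_inf]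
  change σ ∈ Z.fixingSubgroup ∧ σ ∈ St F ∧ _ ↔ _
  constructor
  · rintro ⟨h1, h2, h3⟩
    refine ⟨(IntermediateField.mem_fixingSubgroup_iff _ _).2 ?_, h1⟩
    rintro _ ⟨y, hy, rfl⟩
    rw [(frame S F Z hZ hS).pr_of h2] at h3
    have h4 := res_spec ⟨σ, h2⟩ y
    change σ (y : QB) = (res F ⟨σ, h2⟩ y : QB) at h4
    change σ (y : QB) = (y : QB)
    rw [h4]
    exact congrArg _ ((IntermediateField.mem_fixedField_iff _ _).1 hy _ h3)
  · rintro ⟨h1, h2⟩
    obtain ⟨h3, h4⟩ := fix_fx ((IntermediateField.mem_fixingSubgroup_iff _ _).1 h1)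
    refine ⟨h2, h3, ?_⟩
    rw [(frame S F Z hZ hS).pr_of h3]
    exact h4

variable {p : ℕ}

theorem Homs_eq (p : ℕ) (S : Finset ℕ) (K : IntermediateField ℚ QB) :
    Homs p S K = ((sys S).H p K.fixingSubgroup : Set (GQ → ZMod p)) := by
  have hF : ∀ (E : IntermediateField ℚ QB) (σ : GQ), Fixes E σ ↔ σ ∈ E.fixingSubgroup :=
    fun E σ => (IntermediateField.mem_fixingSubgroup_iff _ _).symm
  ext φ
  constructor
  · rintro ⟨h1, h2, ⟨E, hE, h3⟩, h4⟩
    refine ⟨fun σ hσ => h1 σ fun h => hσ ((hF K σ).1 h), fun σ hσ τ hτ =>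
      h2 σ τ ((hF K σ).2 hσ) ((hF K τ).2 hτ), ⟨E.fixingSubgroup, ⟨E, hE, le_rfl⟩, fun σ hσ hu =>
      h3 σ ((hF K σ).2 hσ) ((hF E σ).2 hu)⟩, fun σ hσ hi => h4 σ ((hF K σ).2 hσ) hi⟩
  · rintro ⟨h1, h2, ⟨U, ⟨E, hE, hU⟩, h3⟩, h4⟩
    refine ⟨fun σ hσ => h1 σ fun h => hσ ((hF K σ).2 h), fun σ τ hσ hτ =>
      h2 σ ((hF K σ).1 hσ) τ ((hF K τ).1 hτ), ⟨E, hE, fun σ hσ hu =>
      h3 σ ((hF K σ).1 hσ) (hU ((hF E σ).1 hu))⟩, fun σ hσ hi => h4 σ ((hF K σ).1 hσ) hi⟩

theorem Homs_card (p : ℕ) (S : Finset ℕ) (K : IntermediateField ℚ QB) :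
    Nat.card (Homs p S K) = Nat.card ((sys S).H p K.fixingSubgroup) := by
  rw [Homs_eq]
  rfl

theorem finite_H {S : Finset ℕ} {K : IntermediateField ℚ QB} :
    (Homs p S K).Finite ↔ Finite ((sys S).H p K.fixingSubgroup) := by
  rw [Homs_eq]
  exact Set.finite_coe_iff.symm

theorem Homs_mono {S S' : Finset ℕ} (h : S ⊆ S') (K : IntermediateField ℚ QB) :
    Homs p S K ⊆ Homs p S' K := by
  rintro φ ⟨h1, h2, h3, h4⟩
  refine ⟨h1, h2, h3, fun σ hσ hi => h4 σ hσ ?_⟩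
  obtain ⟨P, hP, hq, hI⟩ := hi
  exact ⟨P, hP, fun q hqS => hq q (h hqS), hI⟩

/-- The inequality. -/
theorem rank_ineq (hp : p.Prime) (F : IntermediateField ℚ QB) [FiniteDimensional ℚ F]
    (Z : IntermediateField ℚ QB) (hZ : Z.fixingSubgroup.Normal) {ι : Type} [Fintype ι]
    (D : ι → Subgroup (F ≃ₐ[ℚ] F)) (hdom : Dominating p D) (S : Finset ℕ)
    (hS : UnramifiedOutside S F) (h : ∀ i, (Homs p S (fx F (D i) ⊔ Z)).Finite) :
    (Homs p S (F ⊔ Z)).Finite ∧ Nat.card (Homs p S (F ⊔ Z)) ≤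
      (∏ i, p ^ (Nat.card (F ≃ₐ[ℚ] F) ^ 2) * Nat.card (Homs p S (fx F (D i) ⊔ Z))) ^
        (Nat.card (F ≃ₐ[ℚ] F) ^ 2) := by
  have : Fact p.Prime := ⟨hp⟩
  have : Fintype (F ≃ₐ[ℚ] F) := Fintype.ofFinite _
  have hK := frame_K S F Z hZ hS
  have hi : ∀ i, Finite ((sys S).H p ((frame S F Z hZ hS).K (D i))) ∧
      Nat.card ((sys S).H p ((frame S F Z hZ hS).K (D i))) =
        Nat.card (Homs p S (fx F (D i) ⊔ Z)) := fun i => by
    rw [hK, Homs_card]
    exact ⟨finite_H.1 (h i), rfl⟩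
  obtain ⟨h1, h2⟩ := (frame S F Z hZ hS).finite_of_dom p D (fun V _ _ b hV hirr hv =>
    hdom V b ⟨hV, by
      obtain ⟨v, hv, _⟩ := hv
      exact ⟨v, hv⟩, hirr⟩) (fun i => (hi i).1)
  have h4 : (frame S F Z hZ hS).K ⊥ = (F ⊔ Z).fixingSubgroup :=
    (hK ⊥).trans (congrArg (fun X => (X ⊔ Z).fixingSubgroup) (fx_bot F))
  rw [finite_H, Homs_card, ← h4]
  refine ⟨h1, h2.trans (le_of_eq ?_)⟩
  congr 1
  exact Finset.prod_congr rfl fun i _ => by rw [(hi i).2]

/-- The main theorem in one direction. -/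
theorem mu_dom (hp : p.Prime) (F : IntermediateField ℚ QB) [FiniteDimensional ℚ F]
    {ι : Type} (D : ι → Subgroup (F ≃ₐ[ℚ] F)) (hdom : Dominating p D)
    (h : ∀ i, MuZero p (fx F (D i))) : MuZero p F := by
  classical
  intro S hS hpS
  obtain ⟨R, hR, hR'⟩ := exists_ram F
  have hsub : S ⊆ S ∪ R := Finset.subset_union_left
  refine Set.Finite.subset ?_ (Homs_mono hsub _)
  have hS' : UnramifiedOutside (S ∪ R) F := by
    rintro σ ⟨P, hP, hq, hI⟩
    exact hR' σ ⟨P, hP, fun q hqR => hq q (Finset.mem_union_right _ hqR), hI⟩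
  have : Finite (Subgroup (F ≃ₐ[ℚ] F)) := inferInstance
  have : Fintype {E : Subgroup (F ≃ₐ[ℚ] F) // ∃ i, D i = E} := Fintype.ofFinite _
  refine (rank_ineq hp F (Qinf p) (Qinf_normal p)
    (fun E : {E : Subgroup (F ≃ₐ[ℚ] F) // ∃ i, D i = E} => E.1) ?_ (S ∪ R) hS' ?_).1
  · intro V _ _ b hb
    obtain ⟨i, hi⟩ := hdom V b hb
    exact ⟨⟨D i, i, rfl⟩, hi⟩
  · rintro ⟨_, i, rfl⟩
    apply h i
    · intro q hq
      rcases Finset.mem_union.1 hq with hq | hq
      · exact hS q hq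
      · exact hR q hq
    · exact Finset.mem_union_left _ hpS

/-- A primitive element and its conjugates. -/
theorem exists_prim (F : IntermediateField ℚ QB) [FiniteDimensional ℚ F] :
    ∃ (α : QB) (T : Finset QB), (∀ σ : QB ≃ₐ[ℚ] QB, σ α ∈ T) ∧
      ∀ σ : QB ≃ₐ[ℚ] QB, σ α = α → σ ∈ F.fixingSubgroup := by
  classical
  obtain ⟨α, hα⟩ := Field.exists_primitive_element ℚ F
  have hint : IsIntegral ℚ (α : QB) := (Algebra.IsAlgebraic.isAlgebraic (α : QB)).isIntegral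
  refine ⟨α, ((minpoly ℚ (α : QB)).aroots QB).toFinset, fun σ => ?_, fun σ hσ => ?_⟩
  · rw [Multiset.mem_toFinset, Polynomial.mem_aroots]
    refine ⟨minpoly.ne_zero hint, ?_⟩
    exact (Polynomial.aeval_algHom_apply σ.toAlgHom (α : QB) _).trans (by
      rw [minpoly.aeval, map_zero])
  · have h1 : ∀ x : F, σ (x : QB) = x := by
      intro x
      have h2 : x ∈ ℚ⟮α⟯ := by
        rw [hα]
        exact mem_top
      induction h2 using adjoin_induction with
      | mem y hy =>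
        rw [Set.mem_singleton_iff.1 hy]
        exact hσ
      | algebraMap q => exact σ.commutes q
      | add y z _ _ hy hz =>
        change σ ((y : QB) + z) = y + z
        rw [map_add, hy, hz]
      | mul y z _ _ hy hz =>
        change σ ((y : QB) * z) = y * z
        rw [map_mul, hy, hz]
      | inv y _ hy =>
        change σ ((y : QB)⁻¹) = (y : QB)⁻¹
        rw [map_inv₀, hy]
    exact (IntermediateField.mem_fixingSubgroup_iff _ _).2 fun x hx => h1 ⟨x, hx⟩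

end Pool.Agent.H24MU
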