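import Mathlib
import Pool.Agent.H24MU.Frm

/-!
# Smaller fields
-/

set_option autoImplicit false

namespace Pool.Agent.H24MU

open IntermediateField Pool.Agent.H24MU.St Pool.Agent.X310.Mu

variable {p : ℕ}

/-- The field can be replaced by a smaller one. -/
theorem mu_mono {M L : IntermediateField ℚ QB} [FiniteDimensional ℚ L] (hML : M ≤ L)
    (hp : p.Prime) (h : MuZero p L) : MuZero p M := by
  have : Fact p.Prime := ⟨hp⟩
  intro S hS hpS
  have hle : (L ⊔ Qinf p).fixingSubgroup ≤ (M ⊔ Qinf p).fixingSubgroup :=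
    IntermediateField.fixingSubgroup_antitone (sup_le_sup_right hML _)
  obtain ⟨α, T, hT, hα⟩ := exists_prim L
  rw [finite_H]
  refine (sys S).H_mono p hle (finite_H.1 (h S hS hpS)) (fun σ : QB ≃ₐ[ℚ] QB => σ α) T hT ?_
  intro σ hσ τ hτ hστ
  rw [IntermediateField.fixingSubgroup_sup]
  refine ⟨hα _ ?_, ?_⟩
  · apply τ.injective
    change τ (τ⁻¹ (σ α)) = τ α
    rw [← show σ α = τ α from hστ]
    exact τ.apply_symm_apply _
  · exact IntermediateField.fixingSubgroup_antitone (le_sup_right : Qinf p ≤ M ⊔ Qinf p)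
      (Subgroup.mul_mem _ (Subgroup.inv_mem _ hτ) hσ)

end Pool.Agent.H24MU
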