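import Mathlib
import Pool.Agent.H24MU.Mono

/-!
# The reduction to tight fields
-/

set_option autoImplicit false

namespace Pool.Agent.H24MU

open IntermediateField Pool.Agent.H24MU.St

variable {p : ℕ}

theorem fx_le (F : IntermediateField ℚ QB) (D : Subgroup (Aut F)) : fx F D ≤ F := lift_le _

theorem fx_fd (F : IntermediateField ℚ QB) [FiniteDimensional ℚ F] (D : Subgroup (Aut F)) :
    FiniteDimensional ℚ (fx F D) := by
  have : FiniteDimensional ℚ (fixedField (F := ℚ) (E := F) D) := inferInstance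
  exact LinearEquiv.finiteDimensional
    (liftAlgEquiv (fixedField (F := ℚ) (E := F) D)).toLinearEquiv

theorem fx_finrank (F : IntermediateField ℚ QB) [FiniteDimensional ℚ F]
    (D : Subgroup (Aut F)) : deg (fx F D) * Nat.card D = deg F := by
  have h1 : Module.finrank ℚ (fx F D) = Module.finrank ℚ (fixedField (F := ℚ) (E := F) D) :=
    (liftAlgEquiv (fixedField (F := ℚ) (E := F) D)).toLinearEquiv.finrank_eq.symm
  have h2 : Module.finrank (fixedField (F := ℚ) (E := F) D) F = Nat.card D :=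
    finrank_fixedField_eq_card (F := ℚ) (E := F) D
  unfold deg
  rw [h1, ← h2]
  exact Module.finrank_mul_finrank ℚ (fixedField (F := ℚ) (E := F) D) F

theorem real_sub {F M : IntermediateField ℚ QB} (hR : IsReal F) (hM : M ≤ F) : IsReal M := by
  obtain ⟨h1, h2⟩ := hR
  have nF : NumberField F := ⟨⟩
  let : Algebra M F := (IntermediateField.inclusion hM).toRingHom.toAlgebra
  have : FiniteDimensional ℚ M := by
    exact FiniteDimensional.of_injective (IntermediateField.inclusion hM).toLinearMap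
      (IntermediateField.inclusion hM).injective
  have nM : NumberField M := ⟨⟩
  exact ⟨this, NumberField.IsTotallyReal.of_algebra M F⟩

/-- **The main theorem**. -/
theorem mu_iff (hp : p.Prime) (F : IntermediateField ℚ QB) [FiniteDimensional ℚ F]
    {ι : Type} (D : ι → Subgroup (Aut F)) (hdom : Dominating p D) :
    MuZero p F ↔ ∀ i, MuZero p (fx F (D i)) :=
  ⟨fun h i => mu_mono (fx_le F (D i)) hp h, mu_dom hp F D hdom⟩

theorem bounded (hp : p.Prime) (F : IntermediateField ℚ QB) [FiniteDimensional ℚ F]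
    (Z : IntermediateField ℚ QB) (hZ : Z.fixingSubgroup.Normal) {ι : Type} [Fintype ι]
    (D : ι → Subgroup (Aut F)) (hdom : Dominating p D) (S : Finset ℕ)
    (hS : UnramifiedOutside S F) : Bounded p S F Z D := fun h =>
  rank_ineq hp F Z hZ D hdom S hS h

/-- The witness for the nonvanishing. -/
theorem mu_witness (hp : p.Prime) (F : IntermediateField ℚ QB) [FiniteDimensional ℚ F] :
    ¬ MuZero p F ↔ Witness p F := by
  constructor
  · intro h
    by_contra hcon
    apply h
    refine mu_dom hp F (fun D : {D : Subgroup (Aut F) // MuZero p (fx F D)} => D.1) ?_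
      fun D => D.2
    intro V i1 i2 b hb
    by_contra hno
    apply hcon
    refine ⟨V, i1, i2, b, hb, fun D hD hmu => hno ⟨⟨D, hmu⟩, hD⟩⟩
  · rintro ⟨V, i1, i2, b, hb, h⟩
    have h1 := h ⊥ (by
      obtain ⟨v, hv⟩ := hb.2.1
      refine ⟨v, hv, fun d hd => ?_⟩
      rw [Subgroup.mem_bot.1 hd, map_one, MulAut.one_apply])
    have h2 : fx F (⊥ : Subgroup (Aut F)) = F := fx_bot F
    rwa [h2] at h1

theorem red (hp : p.Prime) (n : ℕ)
    (h : ∀ M : IntermediateField ℚ QB, IsReal M → Tight p M → deg M ≤ n → MuZero p M)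
    (F : IntermediateField ℚ QB) (hF : IsReal F) (hn : deg F ≤ n) : MuZero p F := by
  obtain ⟨m, hm⟩ : ∃ m, deg F = m := ⟨_, rfl⟩
  induction m using Nat.strong_induction_on generalizing F with
  | _ m ih =>
    by_cases ht : Tight p F
    · exact h F hF ht hn
    unfold Tight at ht
    push Not at ht
    obtain ⟨L, hL, hFL, hV⟩ := ht
    have hLf : FiniteDimensional ℚ L := hL.1
    refine mu_mono hFL hp ?_
    refine mu_dom hp L (fun D : {D : Subgroup (Aut L) // deg (fx L D) < deg F} => D.1) ?_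
      fun D => ?_
    · intro V i1 i2 b hb
      obtain ⟨D, hD, hDf⟩ := hV V i1 i2 b hb
      exact ⟨⟨D, hD⟩, hDf⟩
    · have hlt : deg (fx L D.1) < m := D.2.trans_eq hm
      exact ih _ hlt (fx L D.1) (real_sub hL (fx_le L D.1))
        ((hlt.le.trans hm.ge).trans hn) rfl

theorem pgroup_fixed (hp : p.Prime) {Γ V : Type} [Group Γ] [CommGroup V] [Finite V]
    (b : Γ →* MulAut V) (hV : ∀ v : V, v ^ p = 1) (hne : ∃ v : V, v ≠ 1) (P : Subgroup Γ)
    (hP : ∃ k, Nat.card P = p ^ k) : HasFixed b P := by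
  have : Fact p.Prime := ⟨hp⟩
  obtain ⟨k, hk⟩ := hP
  have hPf : Finite P := by
    refine Nat.finite_of_card_ne_zero ?_
    rw [hk]
    exact pow_ne_zero _ hp.ne_zero
  have hPg : IsPGroup p P := IsPGroup.of_card hk
  have hVg : IsPGroup p V := fun v => ⟨1, by rw [pow_one]; exact hV v⟩
  let : MulAction P V := MulAction.compHom V (b.comp P.subtype)
  have hdvd : p ∣ Nat.card V := by
    obtain ⟨v, hv⟩ := hne
    have h1 : orderOf v = p := orderOf_eq_prime (hV v) hv
    rw [← h1]
    exact orderOf_dvd_natCard v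
  obtain ⟨v, hv, h1⟩ := hPg.exists_fixed_point_of_prime_dvd_card_of_fixed_point V hdvd
    (a := (1 : V)) (fun g => map_one (b g))
  exact ⟨v, fun h => h1 h.symm, fun d hd => hv ⟨d, hd⟩⟩

theorem restricted (hp : p.Prime) (M : IntermediateField ℚ QB) (hM : IsReal M)
    (ht : Tight p M) : Restricted p M := by
  have : Fact p.Prime := ⟨hp⟩
  have hMf : FiniteDimensional ℚ M := hM.1
  have hlt : ∀ D : Subgroup (Aut M), D ≠ ⊥ → deg (fx M D) < deg M := by
    intro D hD
    have h1 := fx_finrank M D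
    have : Finite (Aut M) := inferInstanceAs (Finite (M ≃ₐ[ℚ] M))
    have h2 : 1 < Nat.card D := Subgroup.one_lt_card_iff_ne_bot D |>.2 hD
    have h3 : 0 < deg M := Module.finrank_pos
    have h4 : 0 < deg (fx M D) := by
      rcases Nat.eq_zero_or_pos (deg (fx M D)) with h | h
      · rw [h, zero_mul] at h1
        omega
      · exact h
    nlinarith
  obtain ⟨V, i1, i2, b, ⟨hV, hne, hirr⟩, hfix⟩ := ht M hM le_rfl
  have hfree : ∀ σ : Aut M, σ ≠ 1 → ∀ v, b σ v = v → v = 1 := by
    intro σ hσ v hv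
    by_contra hv1
    refine hfix (Subgroup.zpowers σ) (hlt _ fun h => hσ (Subgroup.zpowers_eq_bot.1 h))
      ⟨v, hv1, fun d hd => ?_⟩
    have h1 : Subgroup.zpowers σ ≤ (MulAction.stabilizer (MulAut V) v).comap b := by
      rw [Subgroup.zpowers_le]
      exact hv
    exact h1 hd
  refine ⟨fun hdvd => ?_, ⟨V, i1, i2, b, hV, hne, hfree⟩, fun L hL hML P hP => ?_⟩
  · have : Finite (Aut M) := inferInstanceAs (Finite (M ≃ₐ[ℚ] M))
    obtain ⟨σ, hσ⟩ := exists_prime_orderOf_dvd_card' p hdvd
    obtain ⟨v, hv1, hv⟩ := pgroup_fixed hp b hV hne (Subgroup.zpowers σ)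
      ⟨1, by rw [pow_one, Nat.card_zpowers, hσ]⟩
    refine hv1 (hfree σ (fun h => ?_) v (hv σ (Subgroup.mem_zpowers σ)))
    rw [h, orderOf_one] at hσ
    exact hp.one_lt.ne hσ
  · have hLf : FiniteDimensional ℚ L := hL.1
    obtain ⟨V', j1, j2, b', ⟨hV', hne', _⟩, hfix'⟩ := ht L hL hML
    by_contra hlt'
    push Not at hlt'
    refine hfix' P ?_ (pgroup_fixed hp b' hV' hne' P hP)
    have h1 := fx_finrank L P
    rw [← h1, mul_comm (Nat.card P)] at hlt'
    exact lt_of_mul_lt_mul_right hlt' (Nat.zero_le _)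

end Pool.Agent.H24MU
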